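import Mathlib
import Pool.Agent.Helper62.DL.St.F2
import Pool.Agent.Helper62.DG.F9

/-!
# The dimension theorems in terms of homogeneous parts for the total degree
-/

open MvPolynomial

namespace Pool.Agent.Helper62.Crisp

open Pool.Agent.Helper21.PD Pool.Agent.Helper62.DL Pool.Agent.Helper62.DG

/-- An element of all differential primes over a differential ideal is nilpotent modulo it. -/
theorem pow_mem_of_primes {A : Type*} [CommRing A] [Algebra ℚ A] (D : Der A) (I : Ideal A)
    (hI : ∀ f ∈ I, D f ∈ I) (x : A)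
    (h : ∀ Q : Ideal A, Q.IsPrime → (∀ g ∈ Q, D g ∈ Q) → I ≤ Q → x ∈ Q) :
    ∃ N : ℕ, x ^ N ∈ I := by
  change x ∈ I.radical
  rw [← Ideal.sInf_minimalPrimes, Ideal.mem_sInf]
  intro Q hQ
  exact h Q hQ.1.1 (minimalPrimes_differential D I hI Q hQ) hQ.1.2

theorem weight_one {σ : Type*} (γ : σ →₀ ℕ) :
    Finsupp.weight (fun _ : σ => 1) γ = γ.degree := by
  rw [Finsupp.degree_eq_weight_one]

theorem low_part {σ R : Type*} [CommRing R] (f : MvPolynomial σ R) (e : ℕ)
    (h : ∀ k < e, homogeneousComponent k f = 0) (γ : σ →₀ ℕ)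
    (hγ : γ ∈ (f - homogeneousComponent e f).support) : e < γ.degree := by
  rw [mem_support_iff, coeff_sub, coeff_homogeneousComponent] at hγ
  rcases lt_trichotomy γ.degree e with hl | hl | hl
  · exfalso
    have h1 := congrArg (coeff γ) (h _ hl)
    rw [coeff_homogeneousComponent, if_pos rfl, coeff_zero] at h1
    rw [if_neg hl.ne, h1, sub_zero] at hγ
    exact hγ rfl
  · exfalso
    rw [if_pos hl, sub_self] at hγ
    exact hγ rfl
  · exact hl

theorem high_part {σ R : Type*} [CommRing R] (f : MvPolynomial σ R) (γ : σ →₀ ℕ)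
    (hγ : γ ∈ (f - homogeneousComponent f.totalDegree f).support) :
    γ.degree < f.totalDegree := by
  rw [mem_support_iff, coeff_sub, coeff_homogeneousComponent] at hγ
  rcases lt_trichotomy γ.degree f.totalDegree with hl | hl | hl
  · exact hl
  · exfalso
    rw [if_pos hl, sub_self] at hγ
    exact hγ rfl
  · exfalso
    rw [if_neg hl.ne', sub_zero] at hγ
    have h1 := le_totalDegree (mem_support_iff.2 hγ)
    have h2 : γ.degree = γ.sum fun _ e => e := rfl
    omega

/-- Mathlib's derivation of a differential field. -/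
def der (K : Type) [Field K] [Differential K] : Der K where
  toFun := fun a => Differential.deriv a
  add' := fun a b => map_add _ _ _
  mul' := fun a b => by
    rw [Derivation.leibniz, smul_eq_mul, smul_eq_mul]

theorem eq_dext {K : Type} [Field K] [Differential K] {n : ℕ}
    (D : Derivation ℤ (MvPolynomial (Fin n × ℕ) K) (MvPolynomial (Fin n × ℕ) K))
    (hC : ∀ a : K, D (C a) = C (Differential.deriv a))
    (hX : ∀ (j : Fin n) (k : ℕ), D (X (j, k)) = X (j, k + 1)) (g : MvPolynomial (Fin n × ℕ) K) :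
    D g = dext (der K) g := by
  let D' : Der (MvPolynomial (Fin n × ℕ) K) :=
    { toFun := fun a => D a
      add' := fun a b => map_add _ _ _
      mul' := fun a b => by
        rw [Derivation.leibniz, smul_eq_mul, smul_eq_mul] }
  exact dext_unique (der K) D' (fun a => hC a) (fun v => hX v.1 v.2) g

theorem sInf_eq {K : Type} [Field K] [Differential K] {n i : ℕ}
    (D : Derivation ℤ (MvPolynomial (Fin n × ℕ) K) (MvPolynomial (Fin n × ℕ) K))
    (hC : ∀ a : K, D (C a) = C (Differential.deriv a))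
    (hX : ∀ (j : Fin n) (k : ℕ), D (X (j, k)) = X (j, k + 1))
    (u : Fin i → MvPolynomial (Fin n × ℕ) K) :
    sInf {J : Ideal (MvPolynomial (Fin n × ℕ) K) | (∀ m, u m ∈ J) ∧ ∀ g ∈ J, D g ∈ J} =
      diffIdeal (der K) u := by
  refine le_antisymm (sInf_le ⟨fun m => Ideal.subset_span ⟨(m, 0), rfl⟩, fun g hg => ?_⟩)
    (le_sInf ?_)
  · rw [eq_dext D hC hX]
    exact P15.diffIdeal_stable (der K) u g hg
  · rintro J ⟨hJu, hJD⟩
    unfold diffIdeal
    rw [Ideal.span_le]
    rintro _ ⟨⟨m, l⟩, rfl⟩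
    change (dext (der K))^[l] (u m) ∈ J
    induction l with
    | zero => exact hJu m
    | succ l ih =>
      rw [Function.iterate_succ_apply', ← eq_dext D hC hX]
      exact hJD _ ih

/-- The nilpotence hypothesis from the condition on common zeros. -/
theorem hfin {L : Type} [Field L] [CharZero L] [Differential L] {n : ℕ} {ι : Type}
    (D : Derivation ℤ (MvPolynomial (Fin n × ℕ) L) (MvPolynomial (Fin n × ℕ) L))
    (hC : ∀ a : L, D (C a) = C (Differential.deriv a))
    (hX : ∀ (j : Fin n) (k : ℕ), D (X (j, k)) = X (j, k + 1))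
    (s : ι → MvPolynomial (Fin n × ℕ) L) (j : Fin n)
    (h : ∀ Q : Ideal (MvPolynomial (Fin n × ℕ) L), Q.IsPrime → (∀ g ∈ Q, D g ∈ Q) →
      (∀ a, s a ∈ Q) → X (j, 0) ∈ Q) :
    ∃ N : ℕ, X (j, 0) ^ N ∈ diffIdeal (der L) s := by
  refine pow_mem_of_primes (dext (der L)) _ (fun f hf => P15.diffIdeal_stable (der L) s f hf) _
    fun Q hQ hQD hle => ?_
  refine h Q hQ (fun g hg => ?_) fun a => hle (Ideal.subset_span ⟨(a, 0), rfl⟩)
  rw [eq_dext D hC hX]
  exact hQD g hg

theorem global (K : Type) [Field K] [CharZero K] [Differential K] (n i : ℕ) (hin : i ≤ n)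
    (D : Derivation ℤ (MvPolynomial (Fin n × ℕ) K) (MvPolynomial (Fin n × ℕ) K))
    (hC : ∀ a : K, D (C a) = C (Differential.deriv a))
    (hX : ∀ (j : Fin n) (k : ℕ), D (X (j, k)) = X (j, k + 1))
    (u : Fin i → MvPolynomial (Fin n × ℕ) K) (hu : ∀ m, 0 < (u m).totalDegree)
    (v : Fin (n - i) → MvPolynomial (Fin n × ℕ) K)
    (hv : ∀ l, ∃ f, 0 < f ∧ (v l).IsHomogeneous f)
    (h0 : ∀ Q : Ideal (MvPolynomial (Fin n × ℕ) K), Q.IsPrime → (∀ g ∈ Q, D g ∈ Q) →
      (∀ m, homogeneousComponent (u m).totalDegree (u m) ∈ Q) → (∀ l, v l ∈ Q) →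
      ∀ j, X (j, 0) ∈ Q) :
    ∃ P ∈ (sInf {J : Ideal (MvPolynomial (Fin n × ℕ) K) |
        (∀ m, u m ∈ J) ∧ ∀ g ∈ J, D g ∈ J}).minimalPrimes,
      ∃ J : Finset (Fin n), J.card = n - i ∧
        ∀ g ∈ supported K {v : Fin n × ℕ | v.1 ∈ J}, g ∈ P → g = 0 := by
  rw [sInf_eq D hC hX u]
  choose f hf hv using hv
  have hww : (ww (fun _ => 1) 0 : Fin n × ℕ → ℕ) = fun _ => 1 := by
    funext v
    simp
  refine F9.exists_component (der K) (der K) (RingHom.id K) (fun a => rfl) hin u (fun _ => 1)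
    (fun _ => one_pos) (fun m => (u m).totalDegree) hu
    (fun m => homogeneousComponent (u m).totalDegree (u m)) (fun m => ?_) (fun m => ?_) f hf v
    (fun l => ?_) (fun j => ?_)
  · rw [hww]
    exact homogeneousComponent_isHomogeneous _ _
  · rw [hww, MvPolynomial.map_id]
    intro γ hγ
    rw [weight_one]
    exact high_part _ _ hγ
  · rw [hww]
    exact hv l
  · refine hfin D hC hX _ j fun Q hQ hQD hs => h0 Q hQ hQD (fun m => ?_) (fun l => ?_) j
    · exact hs (Sum.inl m)
    · exact hs (Sum.inr l)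

theorem loc (K L : Type) [Field K] [CharZero K] [Differential K] [Field L] [Differential L]
    [Algebra K L] [DifferentialAlgebra K L] (n i : ℕ) (hin : i < n)
    (D : Derivation ℤ (MvPolynomial (Fin n × ℕ) K) (MvPolynomial (Fin n × ℕ) K))
    (hC : ∀ a : K, D (C a) = C (Differential.deriv a))
    (hX : ∀ (j : Fin n) (k : ℕ), D (X (j, k)) = X (j, k + 1))
    (DL : Derivation ℤ (MvPolynomial (Fin n × ℕ) L) (MvPolynomial (Fin n × ℕ) L))
    (hLC : ∀ a : L, DL (C a) = C (Differential.deriv a))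
    (hLX : ∀ (j : Fin n) (k : ℕ), DL (X (j, k)) = X (j, k + 1))
    (u : Fin i → MvPolynomial (Fin n × ℕ) K) (ξ : Fin n → L)
    (T : Fin i → MvPolynomial (Fin n × ℕ) L)
    (hT : ∀ m, T m = aeval (fun v : Fin n × ℕ =>
        (X v + C ((fun a : L => Differential.deriv a)^[v.2] (ξ v.1)) :
          MvPolynomial (Fin n × ℕ) L)) (u m))
    (e : Fin i → ℕ) (he : ∀ m, 0 < e m) (hlow : ∀ m, ∀ k < e m, homogeneousComponent k (T m) = 0)
    (v : Fin (n - i) → MvPolynomial (Fin n × ℕ) L)
    (hv : ∀ l, ∃ f, 0 < f ∧ (v l).IsHomogeneous f)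
    (h0 : ∀ Q : Ideal (MvPolynomial (Fin n × ℕ) L), Q.IsPrime → (∀ g ∈ Q, DL g ∈ Q) →
      (∀ m, homogeneousComponent (e m) (T m) ∈ Q) → (∀ l, v l ∈ Q) → ∀ j, X (j, 0) ∈ Q) :
    ∃ P ∈ (sInf {J : Ideal (MvPolynomial (Fin n × ℕ) K) |
        (∀ m, u m ∈ J) ∧ ∀ g ∈ J, D g ∈ J}).minimalPrimes,
      (∀ g ∈ P, aeval (fun v : Fin n × ℕ =>
        (fun a : L => Differential.deriv a)^[v.2] (ξ v.1)) g = 0) ∧
      ∃ J : Finset (Fin n), J.card = n - i ∧
        ∀ g ∈ supported K {v : Fin n × ℕ | v.1 ∈ J}, g ∈ P → g = 0 := by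
  have hchar : CharZero L := charZero_of_injective_algebraMap (algebraMap K L).injective
  rw [sInf_eq D hC hX u]
  choose f hf hv using hv
  have hww : (fun v : Fin n × ℕ => (fun _ : Fin n => 1) v.1 + 0 * v.2) = fun _ => 1 := by
    funext v
    simp
  have hww' : (ww (fun _ => 1) 0 : Fin n × ℕ → ℕ) = fun _ => 1 := by
    funext v
    simp
  obtain ⟨P, hP, hPξ, J, hJ, hJP⟩ := F2.exists_component (der K) (der L) (algebraMap K L)
    (fun a => (algebraMap.coe_deriv a : _)) 0 (Or.inl rfl) hin.le u ξ (fun _ => 1)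
    (fun _ => one_pos) e he (fun m => homogeneousComponent (e m) (T m)) (fun m => by
      rw [hww']
      exact homogeneousComponent_isHomogeneous _ _)
    (fun m γ hγ => by
      rw [hww', weight_one]
      refine low_part (T m) (e m) (hlow m) γ ?_
      rw [hT m] at hγ ⊢
      exact hγ) f hf v (fun l => by
      rw [hww']
      exact hv l) (fun j => by
      refine hfin DL hLC hLX _ j fun Q hQ hQD hs => h0 Q hQ hQD (fun m => ?_) (fun l => ?_) j
      · exact hs (Sum.inl m)
      · exact hs (Sum.inr l))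
  exact ⟨P, hP, fun g hg => hPξ g hg, J, hJ, hJP⟩

end Pool.Agent.Helper62.Crisp
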